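import Pool.Agent.ZRT.StmtsA

/-!
# ZRT: two distinct points of `S^4` can be moved to `±e_4` (row PSI)
-/

noncomputable section

open scoped ContDiff Topology RealInnerProductSpace
open Set

namespace Pool.Agent.ZRT.H11

open Pool.Agent.RF Pool.Agent.MVS

section Parabolic

variable {V : Type*} [NormedAddCommGroup V] [InnerProductSpace ℝ V]

/-- `s = x_4 - |x|` -/
def ps (e x : V) : ℝ := ⟪x, e⟫ - ‖x‖

/-- `c = ⟪x,a⟫ + ½|a|² s` -/
def pc (e a x : V) : ℝ := ⟪x, a⟫ + 1 / 2 * ‖a‖ ^ 2 * ps e x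

/-- `y = x + s a - c e_4` -/
def py (e a x : V) : V := x + ps e x • a - pc e a x • e

/-- `|x| - c` -/
def pn (e a x : V) : ℝ := ‖x‖ - pc e a x

/-- the parabolic map -/
def pp (e a x : V) : V := (‖x‖ / pn e a x) • py e a x

variable {e a : V}

theorem py_norm_sq (he : ‖e‖ = 1) (ha : ⟪a, e⟫ = (0 : ℝ)) (x : V) :
    ‖py e a x‖ ^ 2 = pn e a x ^ 2 := by
  have hee : ⟪e, e⟫ = (1 : ℝ) := by rw [real_inner_self_eq_norm_sq, he]; norm_num
  have hea : ⟪e, a⟫ = (0 : ℝ) := by rw [real_inner_comm]; exact ha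
  have hxx : ⟪x, x⟫ = ‖x‖ ^ 2 := real_inner_self_eq_norm_sq x
  have haa : ⟪a, a⟫ = ‖a‖ ^ 2 := real_inner_self_eq_norm_sq a
  rw [← real_inner_self_eq_norm_sq]
  simp only [py, inner_add_left, inner_add_right, inner_sub_left, inner_sub_right,
    real_inner_smul_left, real_inner_smul_right, hee, hea, ha, hxx, haa, real_inner_comm x a,
    real_inner_comm x e]
  simp only [pn, pc, ps]
  ring

/-- positivity of `|x| - c` -/
theorem pn_pos (he : ‖e‖ = 1) (ha : ⟪a, e⟫ = (0 : ℝ)) {x : V} (hx : x ≠ 0) : 0 < pn e a x := by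
  have hee : ⟪e, e⟫ = (1 : ℝ) := by rw [real_inner_self_eq_norm_sq, he]; norm_num
  have hea : ⟪e, a⟫ = (0 : ℝ) := by rw [real_inner_comm]; exact ha
  have hxx : ⟪x, x⟫ = ‖x‖ ^ 2 := real_inner_self_eq_norm_sq x
  have haa : ⟪a, a⟫ = ‖a‖ ^ 2 := real_inner_self_eq_norm_sq a
  have hx0 : 0 < ‖x‖ := norm_pos_iff.2 hx
  have hle : ⟪x, e⟫ ≤ ‖x‖ := by
    have := real_inner_le_norm x e
    rwa [he, mul_one] at this
  rcases hle.lt_or_eq with h | h
  · have hs : 0 < ‖x‖ - ⟪x, e⟫ := by linarith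
    have key : 2 * (‖x‖ - ⟪x, e⟫) * pn e a x = (‖x‖ - ⟪x, e⟫) ^ 2
        + ‖x - ⟪x, e⟫ • e - (‖x‖ - ⟪x, e⟫) • a‖ ^ 2 := by
      rw [← real_inner_self_eq_norm_sq (x - ⟪x, e⟫ • e - (‖x‖ - ⟪x, e⟫) • a)]
      simp only [inner_sub_left, inner_sub_right,
        real_inner_smul_left, real_inner_smul_right, hee, hea, ha, hxx, haa, real_inner_comm x a,
        real_inner_comm x e]
      simp only [pn, pc, ps]
      ring
    have h2 : 0 < (‖x‖ - ⟪x, e⟫) ^ 2 + ‖x - ⟪x, e⟫ • e - (‖x‖ - ⟪x, e⟫) • a‖ ^ 2 := by positivity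
    rw [← key] at h2
    have h3 : 0 < 2 * (‖x‖ - ⟪x, e⟫) := by linarith
    exact (pos_iff_pos_of_mul_pos h2).1 h3
  · have h1 : ‖x - ⟪x, e⟫ • e‖ ^ 2 = 0 := by
      rw [← real_inner_self_eq_norm_sq (x - ⟪x, e⟫ • e)]
      simp only [inner_sub_left, inner_sub_right,
        real_inner_smul_left, real_inner_smul_right, hee, hxx,
        real_inner_comm x e]
      rw [h]
      ring
    have h2 : x = ⟪x, e⟫ • e := by
      have h3 : ‖x - ⟪x, e⟫ • e‖ = 0 := by
        rcases pow_eq_zero_iff (n := 2) (by norm_num) |>.1 h1 with h4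
        exact h4
      exact sub_eq_zero.1 (norm_eq_zero.1 h3)
    have h4 : ⟪x, a⟫ = (0 : ℝ) := by
      rw [h2, real_inner_smul_left, hea, mul_zero]
    simp only [pn, pc, ps, h4, h]
    linarith

theorem py_norm (he : ‖e‖ = 1) (ha : ⟪a, e⟫ = (0 : ℝ)) {x : V} (hx : x ≠ 0) :
    ‖py e a x‖ = pn e a x := by
  have h1 := py_norm_sq he ha x
  have h2 := pn_pos he ha hx
  exact (sq_eq_sq₀ (norm_nonneg _) h2.le).1 h1

theorem py_ne (he : ‖e‖ = 1) (ha : ⟪a, e⟫ = (0 : ℝ)) {x : V} (hx : x ≠ 0) : py e a x ≠ 0 := by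
  intro h
  have h1 := py_norm he ha hx
  have h2 := pn_pos he ha hx
  rw [h, norm_zero] at h1
  linarith

theorem pp_norm (he : ‖e‖ = 1) (ha : ⟪a, e⟫ = (0 : ℝ)) (x : V) : ‖pp e a x‖ = ‖x‖ := by
  by_cases hx : x = 0
  · simp [pp, hx]
  · have h2 := pn_pos he ha hx
    rw [pp, norm_smul, py_norm he ha hx, norm_div, Real.norm_of_nonneg (norm_nonneg x),
      Real.norm_of_nonneg h2.le]
    exact div_mul_cancel₀ _ h2.ne'

theorem ps_hom {c : ℝ} (hc : 0 < c) (x : V) : ps e (c • x) = c * ps e x := by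
  simp only [ps, real_inner_smul_left, norm_smul, Real.norm_of_nonneg hc.le]
  ring

theorem pc_hom {c : ℝ} (hc : 0 < c) (x : V) : pc e a (c • x) = c * pc e a x := by
  simp only [pc, ps_hom hc, real_inner_smul_left]
  ring

theorem py_hom {c : ℝ} (hc : 0 < c) (x : V) : py e a (c • x) = c • py e a x := by
  simp only [py, ps_hom hc, pc_hom hc, smul_sub, smul_add, mul_smul]

theorem pn_hom {c : ℝ} (hc : 0 < c) (x : V) : pn e a (c • x) = c * pn e a x := by
  simp only [pn, pc_hom hc, norm_smul, Real.norm_of_nonneg hc.le]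
  ring

theorem pp_hom {c : ℝ} (hc : 0 < c) (x : V) : pp e a (c • x) = c • pp e a x := by
  simp only [pp, py_hom hc, pn_hom hc, norm_smul, Real.norm_of_nonneg hc.le]
  rw [mul_div_mul_left _ _ hc.ne', smul_comm]

theorem pp_inv (he : ‖e‖ = 1) (ha : ⟪a, e⟫ = (0 : ℝ)) {x : V} (hx : x ≠ 0) :
    pp e (-a) (pp e a x) = x := by
  have hee : ⟪e, e⟫ = (1 : ℝ) := by rw [real_inner_self_eq_norm_sq, he]; norm_num
  have hea : ⟪e, a⟫ = (0 : ℝ) := by rw [real_inner_comm]; exact ha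
  have haa : ⟪a, a⟫ = ‖a‖ ^ 2 := real_inner_self_eq_norm_sq a
  have hx0 : 0 < ‖x‖ := norm_pos_iff.2 hx
  have hn := pn_pos he ha hx
  have hyn := py_norm he ha hx
  have h1 : ps e (py e a x) = ps e x := by
    rw [ps, hyn]
    simp only [py, inner_add_left, inner_sub_left, real_inner_smul_left, hee, ha, pn, ps]
    ring
  have h2 : pc e (-a) (py e a x) = - pc e a x := by
    rw [pc, h1, norm_neg, inner_neg_right]
    simp only [py, inner_add_left, inner_sub_left, real_inner_smul_left, hea, haa]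
    simp only [pc]
    ring
  have h3 : py e (-a) (py e a x) = x := by
    rw [py, h1, h2]
    simp only [py, smul_neg, neg_smul]
    abel
  have h4 : pn e (-a) (py e a x) = ‖x‖ := by
    rw [pn, h2, hyn, pn]
    ring
  have h5 : pp e a x = (‖x‖ / pn e a x) • py e a x := rfl
  rw [h5, pp_hom (div_pos hx0 hn), pp, h3, h4, hyn, smul_smul]
  rw [div_mul_div_cancel₀ hn.ne', div_self hx0.ne', one_smul]

theorem pp_e (he : ‖e‖ = 1) (ha : ⟪a, e⟫ = (0 : ℝ)) : pp e a e = e := by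
  have hee : ⟪e, e⟫ = (1 : ℝ) := by rw [real_inner_self_eq_norm_sq, he]; norm_num
  have hea : ⟪e, a⟫ = (0 : ℝ) := by rw [real_inner_comm]; exact ha
  simp [pp, py, pn, pc, ps, he, hea]

theorem pp_neg_e (he : ‖e‖ = 1) (ha : ⟪a, e⟫ = (0 : ℝ)) :
    pp e a (-e) = (1 / (1 + ‖a‖ ^ 2)) • ((‖a‖ ^ 2 - 1) • e - (2 : ℝ) • a) := by
  have hee : ⟪e, e⟫ = (1 : ℝ) := by rw [real_inner_self_eq_norm_sq, he]; norm_num
  have hea : ⟪e, a⟫ = (0 : ℝ) := by rw [real_inner_comm]; exact ha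
  have h1 : ps e (-e) = -2 := by
    simp only [ps, inner_neg_left, hee, norm_neg, he]; norm_num
  have h2 : pc e a (-e) = - ‖a‖ ^ 2 := by
    simp only [pc, h1, inner_neg_left, hea]; ring
  have h3 : pn e a (-e) = 1 + ‖a‖ ^ 2 := by
    simp only [pn, h2, norm_neg, he]; ring
  rw [pp, h3, norm_neg, he, py, h1, h2]
  congr 1
  module

theorem pp_smooth (he : ‖e‖ = 1) (ha : ⟪a, e⟫ = (0 : ℝ)) :
    ContDiffOn ℝ ∞ (pp e a) {x : V | x ≠ 0} := by
  intro x hx
  have hx' : x ≠ 0 := hx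
  have hn : ContDiffAt ℝ ∞ (fun x : V => ‖x‖) x := contDiffAt_norm ℝ hx'
  have hs : ContDiffAt ℝ ∞ (fun x : V => ps e x) x :=
    (contDiffAt_id.inner ℝ contDiffAt_const).sub hn
  have hc : ContDiffAt ℝ ∞ (fun x : V => pc e a x) x :=
    (contDiffAt_id.inner ℝ contDiffAt_const).add (contDiffAt_const.mul hs)
  have hy : ContDiffAt ℝ ∞ (fun x : V => py e a x) x :=
    (contDiffAt_id.add (hs.smul contDiffAt_const)).sub (hc.smul contDiffAt_const)
  have hN : ContDiffAt ℝ ∞ (fun x : V => pn e a x) x := hn.sub hc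
  exact ((hn.div hN (pn_pos he ha hx').ne').smul hy).contDiffWithinAt

/-- for a unit vector `q ≠ e` there is `a ⟂ e` with `P_a (-e) = q` -/
theorem exists_pp (he : ‖e‖ = 1) {q : V} (hq : ‖q‖ = 1) (hqe : q ≠ e) :
    ∃ a : V, ⟪a, e⟫ = (0 : ℝ) ∧ pp e a (-e) = q := by
  have hee : ⟪e, e⟫ = (1 : ℝ) := by rw [real_inner_self_eq_norm_sq, he]; norm_num
  have hqq : ⟪q, q⟫ = (1 : ℝ) := by rw [real_inner_self_eq_norm_sq, hq]; norm_num
  have ht : ⟪q, e⟫ < (1 : ℝ) := inner_lt_one_iff_real_of_norm_eq_one hq he |>.2 hqe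
  set t : ℝ := ⟪q, e⟫ with htd
  have h1t : 0 < 1 - t := by linarith
  have hbe : ⟪q - t • e, e⟫ = (0 : ℝ) := by
    rw [inner_sub_left, real_inner_smul_left, hee, ← htd]; ring
  have hbb : ‖q - t • e‖ ^ 2 = 1 - t ^ 2 := by
    rw [← real_inner_self_eq_norm_sq (q - t • e)]
    simp only [inner_sub_left, inner_sub_right, real_inner_smul_left, real_inner_smul_right, hee,
      hqq, real_inner_comm q e, ← htd]
    ring
  have ha0 : ⟪-(1 / (1 - t)) • (q - t • e), e⟫ = (0 : ℝ) := by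
    rw [real_inner_smul_left, hbe, mul_zero]
  refine ⟨-(1 / (1 - t)) • (q - t • e), ha0, ?_⟩
  have haa : ‖-(1 / (1 - t)) • (q - t • e)‖ ^ 2 = (1 + t) / (1 - t) := by
    rw [norm_smul, mul_pow, hbb, Real.norm_eq_abs, sq_abs]
    field_simp
    ring
  rw [pp_neg_e he ha0, haa]
  have h2 : (1 : ℝ) / (1 + (1 + t) / (1 - t)) = (1 - t) / 2 := by
    field_simp
    ring
  rw [h2, smul_sub, smul_smul, smul_smul, smul_smul]
  have h3 : (1 - t) / 2 * ((1 + t) / (1 - t) - 1) = t := by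
    field_simp
    ring
  have h4 : (1 - t) / 2 * 2 * -(1 / (1 - t)) = -1 := by
    field_simp
  rw [h3, h4]
  module

end Parabolic

theorem psi : PsiStatement := by
  intro p q hp hq hpq
  have he : ‖(eb 4 : E5)‖ = 1 := by simp [eb]
  set O := Submodule.reflection (ℝ ∙ ((eb 4 : E5) - p))ᗮ with hO
  have hOe : O (eb 4) = p := Submodule.reflection_sub (by rw [he, hp])
  have hOO : ∀ x, O (O x) = x := fun x => Submodule.reflection_reflection _ x
  have hOp : O p = eb 4 := by rw [← hOe, hOO]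
  have hq1 : ‖O q‖ = 1 := by rw [LinearIsometryEquiv.norm_map, hq]
  have hqe : O q ≠ eb 4 := by
    intro h
    apply hpq
    rw [← hOO q, h, hOe]
  obtain ⟨a, ha, hae⟩ := exists_pp he hq1 hqe
  have hna : ⟪-a, (eb 4 : E5)⟫ = (0 : ℝ) := by rw [inner_neg_left, ha, neg_zero]
  have hOs : ContDiff ℝ ∞ (fun x => O x) := O.contDiff
  have hom0 : ∀ x : E5, x ∈ Om (Fin 5) ↔ x ≠ 0 := fun x => Iff.rfl
  refine ⟨fun x => O (pp (eb 4) a x), fun x => pp (eb 4) (-a) (O x), ?_, ?_, ?_⟩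
  · refine ⟨?_, ?_, ?_, ?_, ?_, ?_, ?_, ?_⟩
    · exact hOs.comp_contDiffOn (pp_smooth he ha)
    · refine (pp_smooth he hna).comp hOs.contDiffOn ?_
      intro x hx
      have hx' : x ≠ 0 := hx
      show O x ≠ 0
      intro h
      exact hx' (by rw [← hOO x, h, map_zero])
    · intro x
      rw [LinearIsometryEquiv.norm_map, pp_norm he ha]
    · intro x
      rw [pp_norm he hna, LinearIsometryEquiv.norm_map]
    · intro c hc x _
      show O (pp (eb 4) a (c • x)) = c • O (pp (eb 4) a x)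
      rw [pp_hom hc, map_smul]
    · intro c hc x _
      show pp (eb 4) (-a) (O (c • x)) = c • pp (eb 4) (-a) (O x)
      rw [map_smul, pp_hom hc]
    · intro x hx
      have hx' : x ≠ 0 := hx
      show pp (eb 4) (-a) (O (O (pp (eb 4) a x))) = x
      rw [hOO, pp_inv he ha hx']
    · intro x hx
      have hx' : x ≠ 0 := hx
      have hOx : O x ≠ 0 := by
        intro h
        exact hx' (by rw [← hOO x, h, map_zero])
      show O (pp (eb 4) a (pp (eb 4) (-a) (O x))) = x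
      have := pp_inv he hna hOx
      rw [neg_neg] at this
      rw [this, hOO]
  · show O (pp (eb 4) a (eb 4)) = p
    rw [pp_e he ha, hOe]
  · show O (pp (eb 4) a (-(eb 4))) = q
    rw [hae, hOO]

end Pool.Agent.ZRT.H11
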